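import Mathlib

namespace Pool.Agent.Results.MP_2bef4d_nt.Infinite

/-- the abcd equation is solvable for `n` -/
def AbcdSolvable (n : ℕ) : Prop :=
  ∃ a b c d : ℕ, 0 < a ∧ 0 < b ∧ 0 < c ∧ 0 < d ∧
    (n : ℚ) = ((a : ℚ) / b + (b : ℚ) / a) * ((c : ℚ) / d + (d : ℚ) / c)

/-- the integer form is solvable for `n` -/
def IntegerSolvable (n : ℕ) : Prop :=
  ∃ a b : ℕ, 0 < a ∧ 0 < b ∧ (n : ℚ) = ((a : ℚ) + (a : ℚ)⁻¹) * ((b : ℚ) + (b : ℚ)⁻¹)

theorem vieta (k : ℤ) : ∀ (m : ℕ) (a b : ℤ), 0 < a → a ≤ b → b ≤ m →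
    a ^ 2 + b ^ 2 + 1 = k * a * b → k = 3 := by
  intro m
  induction m with
  | zero => intro a b ha hab hb; omega
  | succ m ih =>
    intro a b ha hab hb h
    rcases hab.lt_or_eq with hlt | heq
    · have h1 : b * (k * a - b) = a ^ 2 + 1 := by linear_combination -h
      have h2 : 0 < k * a - b := by
        by_contra hc
        have : b * (k * a - b) ≤ 0 := mul_nonpos_of_nonneg_of_nonpos (by omega) (by omega)
        nlinarith
      have h3 : k * a - b ≤ a := by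
        by_contra hc
        have : (a + 1) * (a + 1) ≤ b * (k * a - b) :=
          mul_le_mul (by omega) (by omega) (by omega) (by omega)
        nlinarith
      exact ih (k * a - b) a h2 h3 (by push_cast at hb; omega) (by linear_combination h)
    · subst heq
      have h1 : a * (k * a - 2 * a) = 1 := by linear_combination -h
      have h2 : a = 1 := Int.eq_one_of_mul_eq_one_right ha.le h1
      subst h2
      omega

theorem sq_of_int {n : ℕ} (h : IntegerSolvable n) : ∃ t : ℤ, (n : ℤ) - 4 = t ^ 2 := by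
  obtain ⟨a, b, ha, hb, h⟩ := h
  have ha' : (a : ℚ) ≠ 0 := by positivity
  have hb' : (b : ℚ) ≠ 0 := by positivity
  have h1 : (n : ℚ) * a * b = (a ^ 2 + 1) * (b ^ 2 + 1) := by rw [h]; field_simp
  have h2 : (n : ℤ) * a * b = (a ^ 2 + 1) * (b ^ 2 + 1) := by exact_mod_cast h1
  have h3 : (n : ℤ) - a * b = 3 := by
    rcases le_total a b with hab | hab
    · exact vieta _ b a b (by exact_mod_cast ha) (by exact_mod_cast hab) le_rfl
        (by linear_combination -h2)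
    · exact vieta _ a b a (by exact_mod_cast hb) (by exact_mod_cast hab) le_rfl
        (by linear_combination -h2)
  have h4 : (n : ℤ) = a * b + 3 := by linarith
  rw [h4] at h2
  exact ⟨a - b, by rw [h4]; linear_combination h2⟩

def Good (c d : ℕ) : Prop := 1 < c ∧ c < d ∧ c ∣ d ^ 4 + 1 ∧ d ∣ c ^ 4 + 1

theorem cop {c d : ℕ} (h : c ∣ d ^ 4 + 1) : Nat.Coprime c d := by
  obtain ⟨e, he⟩ := h
  rw [← Nat.isCoprime_iff_coprime]
  have : (d : ℤ) ^ 4 + 1 = c * e := by exact_mod_cast he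
  exact ⟨e, -(d : ℤ) ^ 3, by linear_combination -this⟩

theorem step {c d : ℕ} (h : Good c d) :
    ∃ e : ℕ, (c : ZMod 19) * e = (d : ZMod 19) ^ 4 + 1 ∧ Good d e := by
  obtain ⟨h1, h2, ⟨e, he⟩, ⟨f, hf⟩⟩ := h
  refine ⟨e, ?_, by omega, ?_, ?_, ⟨c, by rw [he]; ring⟩⟩
  · have := congrArg (Nat.cast : ℕ → ZMod 19) he
    push_cast at this
    exact this.symm
  · by_contra hc
    have t1 : c * e ≤ d * d := Nat.mul_le_mul h2.le (by omega)
    have t2 : d * d * 1 ≤ d * d * (d * d) := Nat.mul_le_mul_left _ (by nlinarith)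
    nlinarith
  · have hc : Nat.Coprime d (c ^ 4) := (cop ⟨e, he⟩).symm.pow_right 4
    refine hc.dvd_of_dvd_mul_left ⟨d ^ 15 + 4 * d ^ 11 + 6 * d ^ 7 + 4 * d ^ 3 + f, ?_⟩
    have t : c ^ 4 * (e ^ 4 + 1) = (c * e) ^ 4 + c ^ 4 := by ring
    rw [t, ← he]
    have : d * (d ^ 15 + 4 * d ^ 11 + 6 * d ^ 7 + 4 * d ^ 3 + f) =
        d ^ 16 + 4 * d ^ 12 + 6 * d ^ 8 + 4 * d ^ 4 + (c ^ 4 + 1) := by rw [hf]; ring
    rw [this]; ring

theorem big (M : ℕ) : ∃ c d : ℕ, Good c d ∧ M ≤ c ∧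
    (((c : ZMod 19) = 2 ∧ (d : ZMod 19) = 17) ∨ ((c : ZMod 19) = 17 ∧ (d : ZMod 19) = 2)) := by
  induction M with
  | zero => exact ⟨2, 17, ⟨by norm_num, by norm_num, by norm_num, by norm_num⟩, by norm_num,
      Or.inl ⟨rfl, rfl⟩⟩
  | succ M ih =>
    obtain ⟨c, d, h, hM, r0⟩ := ih
    obtain ⟨e, e1, g1⟩ := step h
    obtain ⟨f, e2, g2⟩ := step g1
    obtain ⟨g, e3, g3⟩ := step g2
    obtain ⟨i, e4, g4⟩ := step g3
    have k1 : ∀ c d e : ZMod 19, ((c = 2 ∧ d = 17) ∨ (c = 17 ∧ d = 2)) → c * e = d ^ 4 + 1 →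
        ((d = 17 ∧ e = 18) ∨ (d = 2 ∧ e = 1)) := by decide +kernel
    have k2 : ∀ c d e : ZMod 19, ((c = 17 ∧ d = 18) ∨ (c = 2 ∧ d = 1)) → c * e = d ^ 4 + 1 →
        ((d = 18 ∧ e = 18) ∨ (d = 1 ∧ e = 1)) := by decide +kernel
    have k3 : ∀ c d e : ZMod 19, ((c = 18 ∧ d = 18) ∨ (c = 1 ∧ d = 1)) → c * e = d ^ 4 + 1 →
        ((d = 18 ∧ e = 17) ∨ (d = 1 ∧ e = 2)) := by decide +kernel
    have k4 : ∀ c d e : ZMod 19, ((c = 18 ∧ d = 17) ∨ (c = 1 ∧ d = 2)) → c * e = d ^ 4 + 1 →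
        ((d = 2 ∧ e = 17) ∨ (d = 17 ∧ e = 2)) := by decide +kernel
    refine ⟨g, i, g4, ?_, k4 _ _ _ (k3 _ _ _ (k2 _ _ _ (k1 _ _ _ r0 e1) e2) e3) e4⟩
    have := h.2.1; have := g1.2.1; have := g2.2.1; have := g3.2.1
    omega

theorem result : {n : ℕ | 0 < n ∧ AbcdSolvable n ∧ ¬ IntegerSolvable n}.Infinite := by
  refine Set.infinite_of_not_bddAbove ?_
  rintro ⟨M, hM⟩
  obtain ⟨c, d, ⟨h1, h2, h3, h4⟩, hc, r⟩ := big (M + 1)
  have hd1 : c ∣ (c ^ 2 + d ^ 2) ^ 2 + 1 := by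
    have : (c ^ 2 + d ^ 2) ^ 2 + 1 = c * (c ^ 3 + 2 * c * d ^ 2) + (d ^ 4 + 1) := by ring
    rw [this]; exact dvd_add (dvd_mul_right _ _) h3
  have hd2 : d ∣ (c ^ 2 + d ^ 2) ^ 2 + 1 := by
    have : (c ^ 2 + d ^ 2) ^ 2 + 1 = d * (d ^ 3 + 2 * d * c ^ 2) + (c ^ 4 + 1) := by ring
    rw [this]; exact dvd_add (dvd_mul_right _ _) h4
  obtain ⟨n, hn⟩ := (cop h3).mul_dvd_of_dvd_of_dvd hd1 hd2
  have hcn : c ≤ n := by
    by_contra hlt
    have t1 : c * d * n ≤ c * d * c := Nat.mul_le_mul_left _ (by omega)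
    have t2 : c ^ 2 * d * 1 ≤ c ^ 2 * d * d := Nat.mul_le_mul_left _ (by omega)
    nlinarith [Nat.zero_le (c ^ 4), Nat.zero_le (d ^ 4), Nat.zero_le (c ^ 2 * d ^ 2)]
  have hmem : n ∈ {n : ℕ | 0 < n ∧ AbcdSolvable n ∧ ¬ IntegerSolvable n} := by
    refine ⟨by omega, ⟨c ^ 2 + d ^ 2, 1, c, d, by positivity, one_pos, by omega, by omega, ?_⟩,
      fun hI => ?_⟩
    · have hc' : (0 : ℚ) < c := by exact_mod_cast (by omega : 0 < c)
      have hd' : (0 : ℚ) < d := by exact_mod_cast (by omega : 0 < d)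
      have hq : ((c : ℚ) ^ 2 + d ^ 2) ^ 2 + 1 = c * d * n := by exact_mod_cast hn
      push_cast
      field_simp
      linear_combination -hq
    · obtain ⟨t, ht⟩ := sq_of_int hI
      have e1 := congrArg (Nat.cast : ℕ → ZMod 19) hn
      have e2 := congrArg (Int.cast : ℤ → ZMod 19) ht
      push_cast at e1 e2
      have k : ∀ n t : ZMod 19, n - 4 = t ^ 2 →
          ¬ ((2 ^ 2 + 17 ^ 2) ^ 2 + 1 = 2 * 17 * n) ∧
          ¬ ((17 ^ 2 + 2 ^ 2) ^ 2 + 1 = 17 * 2 * n) := by decide +kernel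
      rcases r with ⟨r1, r2⟩ | ⟨r1, r2⟩
      · rw [r1, r2] at e1; exact (k _ _ e2).1 e1
      · rw [r1, r2] at e1; exact (k _ _ e2).2 e1
  have := hM hmem
  omega

end Pool.Agent.Results.MP_2bef4d_nt.Infinite
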